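import Pool.Agent.Q293.CV.Tools

/-!
# Cover cost: job CV-EXC1
-/

set_option autoImplicit false

namespace Pool.Agent.Q293.CV

open MeasureTheory Finset Q287.CV
open scoped ENNReal

/-- job CV-EXC1 -/
theorem t_EXC1 (h1 : S_One) (h2' : S_Res) (h3 : S_Gr) : S_Exc1 := by
  intro V _ _ _ _ G _ hG h2 u y huy x k a s hs
  obtain ⟨rsymm, rself, gsymm, gz, gvv, gform, gharm, -⟩ := h2' V G hG h2
  obtain ⟨gpos, gle, rpos, rnn, -, -, -, -, hdR, -⟩ := h3 V G hG h2
  rcases hs.eq_or_lt with rfl | hs
  · simp only [mul_zero, zero_div, sub_zero, add_zero, one_pow, mul_one]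
    exact Pr_le_one G x _
  have hR : 0 < Rs G u y := rpos u y huy
  have hdu : (0 : ℝ) < (G.degree u : ℝ) := by exact_mod_cast deg_pos G hG h2 u
  have hdy : (0 : ℝ) < (G.degree y : ℝ) := by exact_mod_cast deg_pos G hG h2 y
  obtain ⟨p, hp⟩ : ∃ p, p = 1 / ((G.degree u : ℝ) * Rs G u y) := ⟨_, rfl⟩
  obtain ⟨g, hg⟩ : ∃ g, g = 1 / ((G.degree y : ℝ) * Rs G u y) := ⟨_, rfl⟩
  have hp0 : 0 < p := by rw [hp]; positivity
  have hg0 : 0 < g := by rw [hg]; positivity
  have hp1 : p ≤ 1 := by
    rw [hp, div_le_one (by positivity)]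
    exact hdR u y huy
  have hg1 : g ≤ 1 := by
    rw [hg, div_le_one (by positivity), rsymm u y]
    exact hdR y u huy.symm
  rw [← hp, ← hg]
  obtain ⟨ρ, hρ⟩ : ∃ ρ, ρ = 1 - p * s / (s + g) := ⟨_, rfl⟩
  rw [← hρ]
  have hsg : 0 < s + g := by positivity
  have hρ0 : 0 ≤ ρ := by
    rw [hρ, sub_nonneg, div_le_one hsg]
    nlinarith
  -- the function `h`
  obtain ⟨h, hh⟩ : ∃ h : V → ℝ, h = fun z => 1 + -(s / (s + g)) * (gr G u z y / Rs G u y) :=
    ⟨_, rfl⟩
  have hq0 : ∀ z, 0 ≤ gr G u z y / Rs G u y := fun z => div_nonneg (gpos u z y) hR.le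
  have hq1 : ∀ z, gr G u z y / Rs G u y ≤ 1 := by
    intro z
    rw [div_le_one hR]
    calc gr G u z y ≤ gr G u y y := gle u z y
      _ = Rs G y u := gvv u y
      _ = Rs G u y := rsymm y u
  have hsg1 : s / (s + g) ≤ 1 := by
    rw [div_le_one hsg]; linarith
  have hsg0 : 0 ≤ s / (s + g) := by positivity
  have hh0 : ∀ z, 0 ≤ h z := by
    intro z
    rw [hh]
    show 0 ≤ 1 + -(s / (s + g)) * (gr G u z y / Rs G u y)
    have := mul_le_mul hsg1 (hq1 z) (hq0 z) zero_le_one
    nlinarith [this]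
  have hh1 : ∀ z, h z ≤ 1 := by
    intro z
    rw [hh]
    show 1 + -(s / (s + g)) * (gr G u z y / Rs G u y) ≤ 1
    have := mul_nonneg hsg0 (hq0 z)
    linarith
  have hhavg : ∀ z, (∑ w ∈ G.neighborFinset z, h w) / (G.degree z : ℝ) = h z +
      (s / (s + g)) * (((if z = y then 1 else 0) - (if z = u then 1 else 0)) /
        (G.degree z : ℝ) / Rs G u y) := by
    intro z
    have e1 : (∑ w ∈ G.neighborFinset z, gr G u w y / Rs G u y) / (G.degree z : ℝ) =
      (gr G u z y - ((if z = y then 1 else 0) - (if z = u then 1 else 0)) / (G.degree z : ℝ)) /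
        Rs G u y := by
      rw [← avg_gr G h2' hG h2 u y z, ← Finset.sum_div]
      ring
    rw [hh, avg_affine G hG h2 z, e1]
    ring
  have hhu : h u = 1 := by
    rw [hh]
    show 1 + -(s / (s + g)) * (gr G u u y / Rs G u y) = 1
    rw [gz]; ring
  have hhy : h y = g / (s + g) := by
    rw [hh]
    show 1 + -(s / (s + g)) * (gr G u y y / Rs G u y) = g / (s + g)
    rw [gvv, rsymm y u, div_self hR.ne']
    field_simp
    ring
  have hau : (∑ w ∈ G.neighborFinset u, h w) / (G.degree u : ℝ) = ρ := by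
    rw [hhavg u, if_neg huy, if_pos rfl, hhu, hρ, hp]
    field_simp
    ring
  have hay : (∑ w ∈ G.neighborFinset y, h w) / (G.degree y : ℝ) = (1 + s) * h y := by
    rw [hhavg y, if_pos rfl, if_neg huy.symm, hhy, sub_zero]
    have e2 : 1 / (G.degree y : ℝ) / Rs G u y = g := by rw [hg]; field_simp
    rw [e2]
    field_simp
  have hoff : ∀ z, z ≠ u → z ≠ y → (∑ w ∈ G.neighborFinset z, h w) / (G.degree z : ℝ) = h z := by
    intro z hzu hzy
    rw [hhavg z, if_neg hzy, if_neg hzu]
    ring
  have hmul : ∀ (c : ℝ) (z : V), (∑ w ∈ G.neighborFinset z, c * h w) / (G.degree z : ℝ) =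
      c * ((∑ w ∈ G.neighborFinset z, h w) / (G.degree z : ℝ)) := by
    intro c z
    rw [← Finset.mul_sum, mul_div_assoc]
  have avgmono : ∀ (f f' : V → ℝ) (z : V), (∀ w, f w ≤ f' w) →
      (∑ w ∈ G.neighborFinset z, f w) / (G.degree z : ℝ) ≤
        (∑ w ∈ G.neighborFinset z, f' w) / (G.degree z : ℝ) := by
    intro f f' z hf
    apply div_le_div_of_nonneg_right _ (by positivity)
    exact Finset.sum_le_sum (fun w _ => hf w)
  have key : ∀ m : ℕ, ∀ k a : ℕ, k + a = m → ∀ x : V,
      Pr G x (Low u k y a) ≤ (1 + s) ^ a * ρ ^ k * h x := by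
    intro m
    induction m using Nat.strong_induction_on with
    | _ m ih =>
    intro k a hka
    apply max_principle' G hG h2 {u, y} ⟨u, by simp⟩
    · intro z hz
      simp only [Set.mem_insert_iff, Set.mem_singleton_iff, not_or] at hz
      exact (Pr_step G h1 hG h2 z (meas_Low u k y a) (fun w hw =>
        low_step w u y k a (by rw [hw]; exact hz.1) (by rw [hw]; exact hz.2))).le
    · intro z hz
      simp only [Set.mem_insert_iff, Set.mem_singleton_iff, not_or] at hz
      rw [hmul, hoff z hz.1 hz.2]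
    · intro z hz
      simp only [Set.mem_insert_iff, Set.mem_singleton_iff] at hz
      rcases hz with rfl | rfl
      · -- `z = u`
        cases k with
        | zero =>
          rw [hhu, pow_zero, mul_one, mul_one]
          exact (Pr_le_one G z _).trans (one_le_pow₀ (by linarith))
        | succ k =>
          rw [Pr_step G h1 hG h2 z (meas_Low z k y a) (fun w hw =>
            low_step_u w z y k a huy hw)]
          refine (avgmono _ _ z (ih (k + a) (by omega) k a rfl)).trans ?_
          rw [hmul, hau, hhu, pow_succ]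
          apply le_of_eq
          ring
      · -- `z = y`
        cases a with
        | zero =>
          rw [Pr_zero G h1 hG h2 z (fun w hw => low_zero_y w u z k huy hw)]
          have := hh0 z
          positivity
        | succ a =>
          rw [Pr_step G h1 hG h2 z (meas_Low u k z a) (fun w hw =>
            low_step_y w u z k a huy hw)]
          refine (avgmono _ _ z (ih (k + a) (by omega) k a rfl)).trans ?_
          rw [hmul, hay, pow_succ]
          apply le_of_eq
          ring
  refine (key (k + a) k a rfl x).trans ?_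
  have h6 : 0 ≤ (1 + s) ^ a * ρ ^ k := by positivity
  calc (1 + s) ^ a * ρ ^ k * h x ≤ (1 + s) ^ a * ρ ^ k * 1 :=
        mul_le_mul_of_nonneg_left (hh1 x) h6
    _ = (1 + s) ^ a * ρ ^ k := mul_one _

end Pool.Agent.Q293.CV
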