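import Pool.Agent.Q293.CV.Tools

/-!
# Cover cost: job CV-F2
-/

set_option autoImplicit false

namespace Pool.Agent.Q293.CV

open MeasureTheory Finset Q287.CV
open scoped ENNReal

/-- job CV-F2 -/
theorem t_F2 (h1 : S_One) (h2' : S_Res) (h3 : S_Gr) (h4 : S_Few) : S_F2 := by
  intro V _ _ _ _ G _ hG h2 a b K hab haK hbK k
  obtain ⟨rsymm, rself, gsymm, gz, gvv, gform, gharm, -⟩ := h2' V G hG h2
  obtain ⟨gpos, gle, rpos, rnn, -, -, -, -, hdR, -⟩ := h3 V G hG h2
  have hda : (0 : ℝ) < (G.degree a : ℝ) := by exact_mod_cast deg_pos G hG h2 a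
  have hRab : 0 < Rs G b a := rpos b a hab.symm
  have hRaK : 0 < Rs G a K := rpos a K haK
  obtain ⟨Φ, hΦ⟩ : ∃ Φ, Φ = gr G a b K / Rs G a K + (k : ℝ) / ((G.degree a : ℝ) * Rs G a K) :=
    ⟨_, rfl⟩
  obtain ⟨E, hE⟩ : ∃ E, E = 1 / ((G.degree a : ℝ) * Rs G b a) := ⟨_, rfl⟩
  have hE0 : 0 ≤ E := by rw [hE]; positivity
  have hΦ0 : 0 ≤ Φ := by
    rw [hΦ]
    have := div_nonneg (gpos a b K) hRaK.le
    positivity
  have hfew : ∀ j ≤ k, Pr G b (Few a K j) ≤ Φ := by
    intro j hj
    refine ((h4 V G hG h2 a K haK b j).2.2).trans ?_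
    rw [hΦ]
    have : (j : ℝ) ≤ (k : ℝ) := by exact_mod_cast hj
    gcongr
  have hmeas : ∀ j, MeasurableSet (Few a K j ∩ Hb b K : Set (ℕ → V)) := fun j =>
    (meas_Few a K j).inter (meas_Hb b K)
  have avgR : ∀ (j : ℕ) (z : V), (∑ y ∈ G.neighborFinset z,
      Φ * (gr G a y b / Rs G b a + (j : ℝ) * E)) / (G.degree z : ℝ) =
      Φ * (gr G a z b / Rs G b a + (j : ℝ) * E) -
        Φ * (((if z = b then 1 else 0) - (if z = a then 1 else 0)) / (G.degree z : ℝ) /
          Rs G b a) := by
    intro j z
    have e1 := avg_affine G hG h2 z (fun y => gr G a y b) (Φ * ((j : ℝ) * E)) (Φ / Rs G b a)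
    rw [avg_gr G h2' hG h2 a b z] at e1
    calc _ = (∑ y ∈ G.neighborFinset z, (Φ * ((j : ℝ) * E) + Φ / Rs G b a * gr G a y b)) /
          (G.degree z : ℝ) := by
          congr 1
          apply Finset.sum_congr rfl
          intro y _
          ring
      _ = _ := by rw [e1]; ring
  have key : ∀ j, j ≤ k → ∀ x, Pr G x (Few a K j ∩ Hb b K) ≤
      Φ * (gr G a x b / Rs G b a + (j : ℝ) * E) := by
    intro j
    induction j with
    | zero =>
      intro _
      apply max_principle' G hG h2 {a, b, K} ⟨a, by simp⟩
      · intro z hz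
        simp only [Set.mem_insert_iff, Set.mem_singleton_iff, not_or] at hz
        refine (Pr_step G h1 hG h2 z (hmeas 0) (fun w hw => ?_)).le
        exact and_congr (few_step w a K 0 (by rw [hw]; exact hz.2.2) (by rw [hw]; exact hz.1))
          (hb_step w b K (by rw [hw]; exact hz.2.1) (by rw [hw]; exact hz.2.2))
      · intro z hz
        simp only [Set.mem_insert_iff, Set.mem_singleton_iff, not_or] at hz
        rw [avgR, if_neg hz.1, if_neg hz.2.1]
        simp
      · intro z hz
        simp only [Set.mem_insert_iff, Set.mem_singleton_iff] at hz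
        rcases hz with rfl | rfl | rfl
        · rw [Pr_zero G h1 hG h2 z (fun w hw h =>
            few_zero_at w z K (by rw [hw]; exact haK) hw h.1), gz]
          simp
        · rw [gvv, div_self hRab.ne']
          calc _ ≤ Pr G z (Few a K 0) := Pr_mono G z Set.inter_subset_left
            _ ≤ Φ := hfew 0 (by omega)
            _ = _ := by push_cast; ring
        · rw [Pr_zero G h1 hG h2 z (fun w hw h => hb_not w b z hw h.2)]
          have := div_nonneg (gpos a z b) hRab.le
          positivity
    | succ j ih =>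
      intro hj
      have ih' := ih (by omega)
      apply max_principle' G hG h2 {a, b, K} ⟨a, by simp⟩
      · intro z hz
        simp only [Set.mem_insert_iff, Set.mem_singleton_iff, not_or] at hz
        refine (Pr_step G h1 hG h2 z (hmeas (j + 1)) (fun w hw => ?_)).le
        exact and_congr (few_step w a K (j + 1) (by rw [hw]; exact hz.2.2)
          (by rw [hw]; exact hz.1))
          (hb_step w b K (by rw [hw]; exact hz.2.1) (by rw [hw]; exact hz.2.2))
      · intro z hz
        simp only [Set.mem_insert_iff, Set.mem_singleton_iff, not_or] at hz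
        rw [avgR, if_neg hz.1, if_neg hz.2.1]
        simp
      · intro z hz
        simp only [Set.mem_insert_iff, Set.mem_singleton_iff] at hz
        rcases hz with rfl | rfl | rfl
        · have e0 : Pr G z (Few z K (j + 1) ∩ Hb b K) =
              (∑ y ∈ G.neighborFinset z, Pr G y (Few z K j ∩ Hb b K)) / (G.degree z : ℝ) :=
            Pr_step G h1 hG h2 z (hmeas j) (fun w hw =>
            and_congr (few_step_at w z K j (by rw [hw]; exact haK) hw)
              (hb_step w b K (by rw [hw]; exact hab) (by rw [hw]; exact haK)))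
          rw [e0]
          have e1 : (∑ y ∈ G.neighborFinset z, Pr G y (Few z K j ∩ Hb b K)) /
              (G.degree z : ℝ) ≤ (∑ y ∈ G.neighborFinset z,
                Φ * (gr G z y b / Rs G b z + (j : ℝ) * E)) / (G.degree z : ℝ) := by
            apply div_le_div_of_nonneg_right _ hda.le
            exact Finset.sum_le_sum (fun y _ => ih' y)
          rw [avgR, if_pos rfl, if_neg hab, gz] at e1
          refine e1.trans (le_of_eq ?_)
          rw [gz, hE]
          push_cast
          field_simp
          ring
        · rw [gvv, div_self hRab.ne']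
          calc _ ≤ Pr G z (Few a K (j + 1)) := Pr_mono G z Set.inter_subset_left
            _ ≤ Φ := hfew (j + 1) hj
            _ = Φ * (1 + 0) := by ring
            _ ≤ _ := by
              apply mul_le_mul_of_nonneg_left _ hΦ0
              have : 0 ≤ ((j + 1 : ℕ) : ℝ) * E := by positivity
              linarith
        · rw [Pr_zero G h1 hG h2 z (fun w hw h => hb_not w b z hw h.2)]
          have := div_nonneg (gpos a z b) hRab.le
          positivity
  refine (key k le_rfl a).trans (le_of_eq ?_)
  rw [gz, hE, rsymm a b, ← hΦ]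
  ring

end Pool.Agent.Q293.CV
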