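import Pool.Agent.Q293.CV.Tools

/-!
# Cover cost: job CV-FEW
-/

set_option autoImplicit false

namespace Pool.Agent.Q293.CV

open MeasureTheory Finset Q287.CV
open scoped ENNReal

/-- job CV-FEW -/
theorem t_FEW (h1 : S_One) (h2' : S_Res) (h3 : S_Gr) : S_Few := by
  intro V _ _ _ _ G _ hG h2 v K hvK x k
  obtain ⟨rsymm, rself, gsymm, gz, gvv, gform, gharm, -⟩ := h2' V G hG h2
  obtain ⟨gpos, gle, rpos, rnn, -, -, -, -, hdR, -⟩ := h3 V G hG h2
  have hR : 0 < Rs G v K := rpos v K hvK
  have hdeg : (0 : ℝ) < (G.degree v : ℝ) := by exact_mod_cast deg_pos G hG h2 v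
  obtain ⟨p, hp⟩ : ∃ p, p = 1 / ((G.degree v : ℝ) * Rs G v K) := ⟨_, rfl⟩
  have hp0 : 0 ≤ p := by rw [hp]; positivity
  have hp1 : p ≤ 1 := by
    rw [hp, div_le_one (by positivity)]
    exact hdR v K hvK
  have hone : gr G K v v / Rs G v K = 1 := by rw [gvv, div_self hR.ne']
  -- the average of `q`
  have havg : ∀ z, (∑ y ∈ G.neighborFinset z, gr G K y v / Rs G v K) / (G.degree z : ℝ) =
      (gr G K z v - ((if z = v then 1 else 0) - (if z = K then 1 else 0)) / (G.degree z : ℝ)) /
        Rs G v K := by
    intro z
    rw [← avg_gr G h2' hG h2 K v z, ← Finset.sum_div]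
    ring
  have key : ∀ k : ℕ, ∀ x : V, Pr G x (Few v K k) = 1 - gr G K x v / Rs G v K * (1 - p) ^ k := by
    intro k
    induction k with
    | zero =>
      apply harm_unique G hG h2 {v, K} ⟨v, by simp⟩
      · intro z hz
        simp only [Set.mem_insert_iff, Set.mem_singleton_iff, not_or] at hz
        exact Pr_step G h1 hG h2 z (meas_Few v K 0) (fun w hw =>
          few_step w v K 0 (by rw [hw]; exact hz.2) (by rw [hw]; exact hz.1))
      · intro z hz
        simp only [Set.mem_insert_iff, Set.mem_singleton_iff, not_or] at hz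
        have h4 := avg_affine G hG h2 z (fun y => gr G K y v / Rs G v K) 1 (-1)
        simp only [pow_zero, mul_one]
        rw [havg z, if_neg hz.1, if_neg hz.2, sub_self, zero_div, sub_zero] at h4
        calc 1 - gr G K z v / Rs G v K = 1 + -1 * (gr G K z v / Rs G v K) := by ring
          _ = _ := by
            rw [← h4]
            congr 1
            apply Finset.sum_congr rfl
            intro y _
            ring
      · intro z hz
        simp only [Set.mem_insert_iff, Set.mem_singleton_iff] at hz
        rcases hz with rfl | rfl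
        · rw [hone, Pr_zero G h1 hG h2 z (fun w hw =>
            few_zero_at w z K (by rw [hw]; exact hvK) hw)]
          norm_num
        · rw [gz, Pr_one G h1 hG h2 z (fun w hw => few_self w v z 0 hw)]
          norm_num
    | succ k ih =>
      apply harm_unique G hG h2 {v, K} ⟨v, by simp⟩
      · intro z hz
        simp only [Set.mem_insert_iff, Set.mem_singleton_iff, not_or] at hz
        exact Pr_step G h1 hG h2 z (meas_Few v K (k + 1)) (fun w hw =>
          few_step w v K (k + 1) (by rw [hw]; exact hz.2) (by rw [hw]; exact hz.1))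
      · intro z hz
        simp only [Set.mem_insert_iff, Set.mem_singleton_iff, not_or] at hz
        have h4 := avg_affine G hG h2 z (fun y => gr G K y v / Rs G v K) 1 (-(1 - p) ^ (k + 1))
        rw [havg z, if_neg hz.1, if_neg hz.2, sub_self, zero_div, sub_zero] at h4
        calc 1 - gr G K z v / Rs G v K * (1 - p) ^ (k + 1) =
            1 + -(1 - p) ^ (k + 1) * (gr G K z v / Rs G v K) := by ring
          _ = _ := by
            rw [← h4]
            congr 1
            apply Finset.sum_congr rfl
            intro y _
            ring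
      · intro z hz
        simp only [Set.mem_insert_iff, Set.mem_singleton_iff] at hz
        rcases hz with rfl | rfl
        · rw [Pr_step G h1 hG h2 z (meas_Few z K k) (fun w hw =>
            few_step_at w z K k (by rw [hw]; exact hvK) hw)]
          simp only [ih]
          have h4 := avg_affine G hG h2 z (fun y => gr G K y z / Rs G z K) 1 (-(1 - p) ^ k)
          rw [havg z, if_pos rfl, if_neg hvK, sub_zero, sub_div, hone] at h4
          have h5 : 1 / (G.degree z : ℝ) / Rs G z K = p := by
            rw [hp]; field_simp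
          rw [h5] at h4
          rw [hone]
          calc _ = 1 + -(1 - p) ^ k * (1 - p) := by
                rw [← h4]
                congr 1
                apply Finset.sum_congr rfl
                intro y _
                ring
            _ = _ := by ring
        · rw [gz, Pr_one G h1 hG h2 z (fun w hw => few_self w v z (k + 1) hw)]
          norm_num
  have hq0 : 0 ≤ gr G K x v / Rs G v K := div_nonneg (gpos K x v) hR.le
  have hq1 : gr G K x v / Rs G v K ≤ 1 := by
    rw [div_le_one hR]
    calc gr G K x v ≤ gr G K v v := gle K x v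
      _ = Rs G v K := gvv K v
  have hpk : (k : ℝ) / ((G.degree v : ℝ) * Rs G v K) = k * p := by rw [hp]; ring
  have hpow0 : 0 ≤ (1 - p) ^ k := pow_nonneg (by linarith) k
  refine ⟨by rw [key k x, hp], ?_, ?_⟩
  · rw [key k x, hpk]
    have h4 : (1 - p) ^ k ≤ Real.exp (-(k * p)) := by
      have h5 : 1 - p ≤ Real.exp (-p) := by linarith [Real.add_one_le_exp (-p)]
      calc (1 - p) ^ k ≤ (Real.exp (-p)) ^ k := pow_le_pow_left₀ (by linarith) h5 k
        _ = Real.exp (-(k * p)) := by rw [← Real.exp_nat_mul]; ring_nf
    have h6 : gr G K x v / Rs G v K * (1 - p) ^ k ≤ 1 * (1 - p) ^ k :=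
      mul_le_mul_of_nonneg_right hq1 hpow0
    linarith
  · rw [key k x, hpk]
    have h4 : 1 - k * p ≤ (1 - p) ^ k := by
      have := one_add_mul_le_pow (a := -p) (by linarith) k
      calc 1 - k * p = 1 + k * (-p) := by ring
        _ ≤ (1 + -p) ^ k := this
        _ = (1 - p) ^ k := by ring
    have h5 : gr G v x K / Rs G v K = 1 - gr G K x v / Rs G v K := by
      rw [eq_sub_iff_add_eq, ← add_div, gform v x K, gform K x v, rsymm K v]
      rw [show (Rs G x v + Rs G v K - Rs G x K) / 2 + (Rs G x K + Rs G v K - Rs G x v) / 2 =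
        Rs G v K by ring, div_self hR.ne']
    rw [h5]
    have h6 : gr G K x v / Rs G v K * (1 - k * p) ≤ gr G K x v / Rs G v K * (1 - p) ^ k :=
      mul_le_mul_of_nonneg_left h4 hq0
    have h7 : gr G K x v / Rs G v K * (k * p) ≤ 1 * (k * p) :=
      mul_le_mul_of_nonneg_right hq1 (by positivity)
    nlinarith [h6, h7]

end Pool.Agent.Q293.CV
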