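import Pool.Agent.Q293.CV.Tools

/-!
# Cover cost: job CV-HITP
-/

set_option autoImplicit false

namespace Pool.Agent.Q293.CV

open MeasureTheory Finset Q287.CV
open scoped ENNReal

/-- job CV-HITP -/
theorem t_HITP (h1 : S_One) (h2' : S_Res) (h3 : S_Gr) : S_Hitp := by
  intro V _ _ _ _ G _ hG h2
  obtain ⟨rsymm, rself, gsymm, gz, gvv, gform, gharm, -⟩ := h2' V G hG h2
  obtain ⟨gpos, gle, rpos, rnn, -, -, -, -, hdR, -⟩ := h3 V G hG h2
  have key : ∀ x v z : V, v ≠ z → Pr G x (Hb v z) = gr G z x v / Rs G v z := by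
    intro x v z hvz
    have hR : 0 < Rs G v z := rpos v z hvz
    revert x
    apply harm_unique G hG h2 {v, z} ⟨v, by simp⟩
    · intro y hy
      simp only [Set.mem_insert_iff, Set.mem_singleton_iff, not_or] at hy
      exact Pr_step G h1 hG h2 y (meas_Hb v z) (fun w hw =>
        hb_step w v z (by rw [hw]; exact hy.1) (by rw [hw]; exact hy.2))
    · intro y hy
      simp only [Set.mem_insert_iff, Set.mem_singleton_iff, not_or] at hy
      rw [← Finset.sum_div, div_right_comm, avg_gr G h2' hG h2 z v y, if_neg hy.1, if_neg hy.2]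
      simp
    · intro y hy
      simp only [Set.mem_insert_iff, Set.mem_singleton_iff] at hy
      rcases hy with rfl | rfl
      · rw [gvv, div_self hR.ne', Pr_one G h1 hG h2 y (fun w hw => hb_self w y z hvz hw)]
      · rw [gz, zero_div, Pr_zero G h1 hG h2 y (fun w hw => hb_not w v y hw)]
  refine ⟨key, ?_⟩
  intro x y hxy
  have hR : 0 < Rs G y x := rpos y x hxy.symm
  have hd : (0 : ℝ) < (G.degree x : ℝ) := by exact_mod_cast deg_pos G hG h2 x
  rw [(h1 V G hG h2 x).2 _ (meas_Hb y x)]
  simp only [key _ y x hxy.symm]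
  rw [← Finset.sum_div, div_right_comm, avg_gr G h2' hG h2 x y x, gz, if_neg hxy, if_pos rfl,
    rsymm x y]
  field_simp
  ring

end Pool.Agent.Q293.CV
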