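import Pool.Agent.Q293.CV.Tools

/-!
# Cover cost: job CV-HITT
-/

set_option autoImplicit false

namespace Pool.Agent.Q293.CV

open MeasureTheory Finset Q287.CV
open scoped ENNReal

/-- job CV-HITT -/
theorem t_HITT (h1 : S_One) (h2' : S_Res) (h3 : S_Gr) : S_Hitt := by
  intro V _ _ _ _ G _ hG h2 x₀ z
  obtain ⟨rsymm, rself, gsymm, gz, gvv, gform, gharm, hharm, hself, -⟩ := h2' V G hG h2
  have hHnn : ∀ x y, 0 ≤ Hit G x y := (h3 V G hG h2).2.2.2.2.2.2.2.2.2.2.2.1
  obtain ⟨a, ha⟩ : ∃ a : ℕ → V → ℝ, a = fun t x => Pr G x {w | ∀ s ≤ t, w s ≠ z} := ⟨_, rfl⟩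
  have hmeas : ∀ t, MeasurableSet {w : ℕ → V | ∀ s ≤ t, w s ≠ z} := fun t =>
    (det_avoid t z).measurableSet
  have ann : ∀ t x, 0 ≤ a t x := fun t x => by rw [ha]; exact Pr_nonneg G x _
  have az : ∀ t, a t z = 0 := by
    intro t
    rw [ha]
    exact Pr_zero G h1 hG h2 z (fun w hw h => h 0 (by omega) hw)
  have a0 : ∀ x, x ≠ z → a 0 x = 1 := by
    intro x hx
    rw [ha]
    exact Pr_one G h1 hG h2 x (fun w hw s hs => by
      have : s = 0 := by omega
      subst this
      rw [hw]; exact hx)
  have astep : ∀ t x, x ≠ z → a (t + 1) x =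
      (∑ y ∈ G.neighborFinset x, a t y) / (G.degree x : ℝ) := by
    intro t x hx
    rw [ha]
    refine Pr_step G h1 hG h2 x (hmeas t) (fun w hw => ?_)
    constructor
    · intro h s hs
      rw [sh_one]
      exact h _ (by omega)
    · intro h s hs
      cases s with
      | zero => rw [hw]; exact hx
      | succ s =>
        have := h s (by omega)
        rwa [sh_one] at this
  have hHit : ∀ x, x ≠ z → (∑ y ∈ G.neighborFinset x, Hit G y z) / (G.degree x : ℝ) =
      Hit G x z - 1 := by
    intro x hx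
    have hd : (0 : ℝ) < (G.degree x : ℝ) := by exact_mod_cast deg_pos G hG h2 x
    have := hharm z x
    rw [if_neg hx] at this
    rw [div_eq_iff hd.ne']
    linarith
  have Tstep : ∀ m x, x ≠ z → ∑ t ∈ Finset.range (m + 1), a t x =
      1 + (∑ y ∈ G.neighborFinset x, ∑ t ∈ Finset.range m, a t y) / (G.degree x : ℝ) := by
    intro m x hx
    rw [Finset.sum_range_succ', a0 x hx, Finset.sum_congr rfl (fun t _ => astep t x hx),
      ← Finset.sum_div, Finset.sum_comm, add_comm]
  have Tle : ∀ m x, ∑ t ∈ Finset.range m, a t x ≤ Hit G x z := by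
    intro m
    induction m with
    | zero => intro x; rw [Finset.sum_range_zero]; exact hHnn x z
    | succ m ih =>
      intro x
      by_cases hx : x = z
      · rw [hx, Finset.sum_eq_zero (fun t _ => az t), hself]
      · rw [Tstep m x hx]
        have hd : (0 : ℝ) < (G.degree x : ℝ) := by exact_mod_cast deg_pos G hG h2 x
        have e1 : (∑ y ∈ G.neighborFinset x, ∑ t ∈ Finset.range m, a t y) / (G.degree x : ℝ) ≤
            (∑ y ∈ G.neighborFinset x, Hit G y z) / (G.degree x : ℝ) := by
          apply div_le_div_of_nonneg_right _ hd.le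
          exact Finset.sum_le_sum (fun y _ => ih y)
        rw [hHit x hx] at e1
        linarith
  have hsum : ∀ x, Summable (fun t => a t x) := fun x =>
    summable_of_sum_range_le (fun t => ann t x) (fun m => Tle m x)
  have hT : ∀ x, x ≠ z → ∑' t, a t x =
      1 + (∑ y ∈ G.neighborFinset x, ∑' t, a t y) / (G.degree x : ℝ) := by
    intro x hx
    have e1 : Filter.Tendsto (fun m => ∑ t ∈ Finset.range (m + 1), a t x) Filter.atTop
        (nhds (∑' t, a t x)) :=
      (hsum x).hasSum.tendsto_sum_nat.comp (Filter.tendsto_add_atTop_nat 1)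
    have e2 : Filter.Tendsto (fun m => 1 + (∑ y ∈ G.neighborFinset x,
        ∑ t ∈ Finset.range m, a t y) / (G.degree x : ℝ)) Filter.atTop
        (nhds (1 + (∑ y ∈ G.neighborFinset x, ∑' t, a t y) / (G.degree x : ℝ))) := by
      apply Filter.Tendsto.const_add
      apply Filter.Tendsto.div_const
      exact tendsto_finsetSum _ (fun y _ => (hsum y).hasSum.tendsto_sum_nat)
    have e3 : (fun m => ∑ t ∈ Finset.range (m + 1), a t x) = (fun m => 1 +
        (∑ y ∈ G.neighborFinset x, ∑ t ∈ Finset.range m, a t y) / (G.degree x : ℝ)) :=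
      funext (fun m => Tstep m x hx)
    rw [e3] at e1
    exact tendsto_nhds_unique e1 e2
  have key : ∀ x, ∑' t, a t x - Hit G x z = 0 := by
    apply harm_unique G hG h2 {z} ⟨z, rfl⟩ (fun x => ∑' t, a t x - Hit G x z) (fun _ => 0)
    · intro x hx
      have hx' : x ≠ z := hx
      show ∑' t, a t x - Hit G x z = (∑ y ∈ G.neighborFinset x, (∑' t, a t y - Hit G y z)) /
        (G.degree x : ℝ)
      rw [Finset.sum_sub_distrib, sub_div, hHit x hx', hT x hx']
      ring
    · intro x _
      simp
    · intro x hx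
      have hx' : x = z := hx
      rw [hx']
      show ∑' t, a t z - Hit G z z = 0
      rw [hself]
      simp [az]
  have hfin : ∀ t, Lw G x₀ {w | ∀ s ≤ t, w s ≠ z} = ENNReal.ofReal (a t x₀) := by
    intro t
    rw [ha]
    show _ = ENNReal.ofReal ((Lw G x₀).real _)
    rw [ofReal_measureReal]
  simp only [hfin]
  rw [← ENNReal.ofReal_tsum_of_nonneg (fun t => ann t x₀) (hsum x₀)]
  congr 1
  linarith [key x₀]

end Pool.Agent.Q293.CV
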