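import Pool.Agent.Q293.CV.Tools

/-!
# Cover cost: job CV-LASTU
-/

set_option autoImplicit false
set_option linter.unusedSectionVars false

namespace Pool.Agent.Q293.CV

open MeasureTheory Finset Q287.CV
open scoped ENNReal

section

variable {V : Type} [DecidableEq V]

lemma cnt_eq_zero (w : ℕ → V) (v : V) (t : ℕ) (h : ∀ s < t, w s ≠ v) : cnt w v t = 0 := by
  unfold cnt
  rw [Finset.card_eq_zero, Finset.filter_eq_empty_iff]
  intro s hs
  exact h s (Finset.mem_range.1 hs)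

lemma fst_shift (w : ℕ → V) (K : V) (t T : ℕ) (h : ∀ s < t, w s ≠ K) :
    Fst (sh t w) K T ↔ Fst w K (t + T) := by
  unfold Fst
  constructor
  · rintro ⟨h1, h2⟩
    refine ⟨h1, fun s hs => ?_⟩
    by_cases hst : s < t
    · exact h s hst
    · have := h2 (s - t) (by omega)
      rw [sh_apply, show t + (s - t) = s by omega] at this
      exact this
  · rintro ⟨h1, h2⟩
    exact ⟨h1, fun s hs => h2 (t + s) (by omega)⟩

end

section

variable {V : Type} [Fintype V] [DecidableEq V] [MeasurableSpace V] [DiscreteMeasurableSpace V]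

lemma meas_Last (z : ℕ → V) (k : ℕ → ℕ) (K : V) (N i : ℕ) :
    MeasurableSet (Last z k K N i : Set (ℕ → V)) := by
  have : (Last z k K N i : Set (ℕ → V)) = Few (z i) K (k i) ∩
      ⋂ j ∈ {j : ℕ | i < j ∧ j ≤ N}, (Few (z j) K (k j))ᶜ := by
    ext w
    simp only [Last, Set.mem_ofPred_eq, Set.mem_inter_iff, Set.mem_iInter, Set.mem_compl_iff]
    constructor
    · rintro ⟨h1, h2⟩
      exact ⟨h1, fun j hj => h2 j hj.1 hj.2⟩
    · rintro ⟨h1, h2⟩
      exact ⟨h1, fun j hj hj' => h2 j ⟨hj, hj'⟩⟩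
  rw [this]
  apply (meas_Few _ _ _).inter
  exact MeasurableSet.biInter (Set.to_countable _) (fun j _ => (meas_Few _ _ _).compl)

end

/-- job CV-LASTU -/
theorem t_LASTU (h : S_Stop) : S_LastU := by
  intro V _ _ _ _ G _ hG h2 r K N z k i hi hzK hzi
  obtain ⟨D, hD⟩ : ∃ D : ℕ → Set (ℕ → V), D = fun t => {w | Fst w (z i) t ∧
      (∀ s ≤ t, w s ≠ K) ∧ ∀ j, i < j → j ≤ N → ∀ s ≤ t, w s ≠ z j} := ⟨_, rfl⟩
  have hDet : ∀ t, Det t (D t) := by
    intro t w w' hww hw
    rw [hD] at hw ⊢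
    obtain ⟨e1, e2, e3⟩ := hw
    refine ⟨det_fst t (z i) w w' hww e1, fun s hs => ?_, fun j hj hj' s hs => ?_⟩
    · rw [← hww s hs]; exact e2 s hs
    · rw [← hww s hs]; exact e3 j hj hj' s hs
  have hdisj : ∀ s t, s ≠ t → Disjoint (D s) (D t) := by
    intro s t hst
    rw [Set.disjoint_left]
    intro w hws hwt
    rw [hD] at hws hwt
    obtain ⟨⟨a1, a2⟩, -⟩ := hws
    obtain ⟨⟨b1, b2⟩, -⟩ := hwt
    rcases lt_or_gt_of_ne hst with hlt | hlt
    · exact b2 s hlt a1
    · exact a2 t hlt b1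
  have hat : ∀ t, ∀ w ∈ D t, w t = z i := by
    intro t w hw
    rw [hD] at hw
    exact hw.1.1
  have hst := h V G hG h2 r (z i) D hDet hdisj hat (Last z k K N i) (meas_Last z k K N i)
  have hsub : (Last z k K N i : Set (ℕ → V)) ⊆ ({w | ∃ t, w ∈ D t ∧ sh t w ∈ Last z k K N i} ∪
      Hb K (z i)) ∪ ⋃ j ∈ Finset.Ioc i N, Hb (z j) (z i) := by
    intro w hw
    by_contra hcon
    simp only [Set.mem_union, not_or, Set.mem_iUnion, not_exists] at hcon
    obtain ⟨⟨hc1, hc2⟩, hc3⟩ := hcon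
    obtain ⟨⟨T, hT1, hT2⟩, hw2⟩ := hw
    -- the first hitting time of `z i`
    have hex : ∃ s, s ≤ T ∧ w s = z i := by
      by_contra hno
      apply hc2
      refine ⟨T, hT1.1, fun s hs hsz => hno ⟨s, hs, hsz⟩⟩
    classical
    obtain ⟨ht1, ht2⟩ := Nat.find_spec hex
    have hmin : ∀ s < Nat.find hex, w s ≠ z i := fun s hs hsz =>
      Nat.find_min hex hs ⟨by omega, hsz⟩
    set t := Nat.find hex with htdef
    have htT : t < T := by
      rcases Nat.lt_or_ge t T with h' | h'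
      · exact h'
      · have : t = T := by omega
        exact absurd (ht2.symm.trans (this ▸ hT1.1)) (hzK i hi)
    have hnoK : ∀ s ≤ t, w s ≠ K := fun s hs => hT1.2 s (by omega)
    have hnoj : ∀ j, i < j → j ≤ N → ∀ s ≤ t, w s ≠ z j := by
      intro j hj hj' s hs hsz
      apply hc3 j (Finset.mem_Ioc.2 ⟨hj, hj'⟩)
      refine ⟨s, hsz, fun s' hs' hs'z => ?_⟩
      rcases Nat.lt_or_ge s' t with h' | h'
      · exact hmin s' h' hs'z
      · have : s = t := by omega
        subst this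
        exact hzi j hj hj' (hsz.symm.trans ht2)
    apply hc1
    refine ⟨t, ?_, ?_, ?_⟩
    · rw [hD]
      exact ⟨⟨ht2, hmin⟩, hnoK, hnoj⟩
    · refine ⟨T - t, ?_, ?_⟩
      · rw [fst_shift w K t (T - t) (fun s hs => hnoK s hs.le), show t + (T - t) = T by omega]
        exact hT1
      · have := cnt_sh w (z i) t (T - t)
        rw [show t + (T - t) = T by omega] at this
        omega
    · intro j hj hj' hfew
      obtain ⟨T', hT1', hT2'⟩ := hfew
      apply hw2 j hj hj'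
      refine ⟨t + T', (fst_shift w K t T' (fun s hs => hnoK s hs.le)).1 hT1', ?_⟩
      rw [cnt_sh, cnt_eq_zero w (z j) t (fun s hs => hnoj j hj hj' s hs.le), zero_add]
      exact hT2'
  calc Pr G r (Last z k K N i) ≤ Pr G r (({w | ∃ t, w ∈ D t ∧ sh t w ∈ Last z k K N i} ∪
      Hb K (z i)) ∪ ⋃ j ∈ Finset.Ioc i N, Hb (z j) (z i)) := Pr_mono G r hsub
    _ ≤ Pr G r ({w | ∃ t, w ∈ D t ∧ sh t w ∈ Last z k K N i} ∪ Hb K (z i)) +
        Pr G r (⋃ j ∈ Finset.Ioc i N, Hb (z j) (z i)) := Pr_union_le G r _ _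
    _ ≤ (Pr G r {w | ∃ t, w ∈ D t ∧ sh t w ∈ Last z k K N i} + Pr G r (Hb K (z i))) +
        ∑ j ∈ Finset.Ioc i N, Pr G r (Hb (z j) (z i)) := by
          apply add_le_add (Pr_union_le G r _ _)
          exact measureReal_biUnion_finset_le _ _
    _ ≤ _ := by
      rw [hst]
      have e1 := Pr_le_one G r (⋃ t, D t)
      have e2 := Pr_nonneg G (z i) (Last z k K N i)
      have e3 : Pr G r (⋃ t, D t) * Pr G (z i) (Last z k K N i) ≤
          1 * Pr G (z i) (Last z k K N i) := mul_le_mul_of_nonneg_right e1 e2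
      linarith

end Pool.Agent.Q293.CV
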