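import Pool.Agent.Q293.CV.Tools

/-!
# Cover cost: job CV-LATE
-/

set_option autoImplicit false

namespace Pool.Agent.Q293.CV

open MeasureTheory Finset Q287.CV
open scoped ENNReal

/-- job CV-LATE -/
theorem t_LATE (h1 : S_One) (h2' : S_Res) (h3 : S_Gr) : S_Late := by
  intro V _ _ _ _ G _ hG h2 r K k T
  obtain ⟨rsymm, rself, gsymm, gz, gvv, gform, gharm, hharm, hself, -⟩ := h2' V G hG h2
  obtain ⟨b, hb⟩ : ∃ b : ℕ → ℕ → V → ℝ, b = fun k t x => Pr G x {w | cnt w K t ≤ k} := ⟨_, rfl⟩
  have hmeas : ∀ k t, MeasurableSet {w : ℕ → V | cnt w K t ≤ k} := fun k t =>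
    (det_cnt t K (fun m => m ≤ k)).measurableSet
  have hdK : (0 : ℝ) < (G.degree K : ℝ) := by exact_mod_cast deg_pos G hG h2 K
  have b0 : ∀ k x, b k 0 x = 1 := by
    intro k x
    rw [hb]
    exact Pr_one G h1 hG h2 x (fun w hw => by
      show cnt w K 0 ≤ k
      rw [cnt_nil]; omega)
  have bstep : ∀ k t x, x ≠ K → b k (t + 1) x =
      (∑ y ∈ G.neighborFinset x, b k t y) / (G.degree x : ℝ) := by
    intro k t x hx
    rw [hb]
    exact Pr_step G h1 hG h2 x (hmeas k t) (fun w hw => by
      show cnt w K (t + 1) ≤ k ↔ cnt (sh 1 w) K t ≤ k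
      rw [cnt_step, if_neg (by rw [hw]; exact hx), zero_add])
  have bK0 : ∀ t, b 0 (t + 1) K = 0 := by
    intro t
    rw [hb]
    exact Pr_zero G h1 hG h2 K (fun w hw => by
      show ¬ cnt w K (t + 1) ≤ 0
      rw [cnt_step, if_pos hw]
      omega)
  have bK : ∀ k t, b (k + 1) (t + 1) K =
      (∑ y ∈ G.neighborFinset K, b k t y) / (G.degree K : ℝ) := by
    intro k t
    rw [hb]
    exact Pr_step G h1 hG h2 K (hmeas k t) (fun w hw => by
      show cnt w K (t + 1) ≤ k + 1 ↔ cnt (sh 1 w) K t ≤ k
      rw [cnt_step, if_pos hw]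
      omega)
  have hHit : ∀ x, (∑ y ∈ G.neighborFinset x, Hit G y K) / (G.degree x : ℝ) =
      Hit G x K - 1 + (if x = K then DD G else 0) / (G.degree x : ℝ) := by
    intro x
    have hd : (0 : ℝ) < (G.degree x : ℝ) := by exact_mod_cast deg_pos G hG h2 x
    have := hharm K x
    rw [div_eq_iff hd.ne', add_mul, div_mul_cancel₀ _ hd.ne']
    linarith
  have hsum : ∀ (k m : ℕ) (x : V), ∑ t ∈ Finset.range (m + 1),
      (∑ y ∈ G.neighborFinset x, b k t y) / (G.degree x : ℝ) =
      1 + (∑ y ∈ G.neighborFinset x, ∑ t ∈ Finset.range m, b k (t + 1) y) /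
        (G.degree x : ℝ) := by
    intro k m x
    have hd : (0 : ℝ) < (G.degree x : ℝ) := by exact_mod_cast deg_pos G hG h2 x
    rw [Finset.sum_range_succ', ← Finset.sum_div, Finset.sum_comm]
    simp only [b0]
    rw [Finset.sum_const, G.card_neighborFinset_eq_degree, nsmul_eq_mul, mul_one,
      div_self hd.ne', add_comm]
  have havg : ∀ (k m : ℕ) (x : V), (∀ y, ∑ t ∈ Finset.range m, b k (t + 1) y ≤
      Hit G y K + (k : ℝ) * (DD G / (G.degree K : ℝ))) →
      (∑ y ∈ G.neighborFinset x, ∑ t ∈ Finset.range m, b k (t + 1) y) / (G.degree x : ℝ) ≤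
        Hit G x K - 1 + (if x = K then DD G else 0) / (G.degree x : ℝ) +
          (k : ℝ) * (DD G / (G.degree K : ℝ)) := by
    intro k m x hy
    have hd : (0 : ℝ) < (G.degree x : ℝ) := by exact_mod_cast deg_pos G hG h2 x
    have e1 : (∑ y ∈ G.neighborFinset x, ∑ t ∈ Finset.range m, b k (t + 1) y) /
        (G.degree x : ℝ) ≤ (∑ y ∈ G.neighborFinset x,
          ((k : ℝ) * (DD G / (G.degree K : ℝ)) + 1 * Hit G y K)) / (G.degree x : ℝ) := by
      apply div_le_div_of_nonneg_right _ hd.le
      apply Finset.sum_le_sum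
      intro y _
      have := hy y
      linarith
    rw [avg_affine G hG h2 x, hHit x] at e1
    linarith
  have key : ∀ m k x, ∑ t ∈ Finset.range m, b k (t + 1) x ≤
      Hit G x K + (k : ℝ) * (DD G / (G.degree K : ℝ)) := by
    intro m
    induction m with
    | zero =>
      intro k x
      rw [Finset.sum_range_zero]
      have e1 : 0 ≤ Hit G x K := (h3 V G hG h2).2.2.2.2.2.2.2.2.2.2.2.1 x K
      have e2 : 0 ≤ DD G := by unfold DD; positivity
      positivity
    | succ m ih =>
      intro k x
      by_cases hx : x = K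
      · subst hx
        cases k with
        | zero =>
          rw [Finset.sum_eq_zero (fun t _ => bK0 t), hself]
          simp
        | succ k =>
          rw [Finset.sum_congr rfl (fun t _ => bK k t), hsum]
          have e1 := havg k m x (ih k)
          rw [if_pos rfl, hself] at e1
          rw [hself]
          push_cast
          linarith
      · rw [Finset.sum_congr rfl (fun t _ => bstep k t x hx), hsum]
        have e1 := havg k m x (ih k)
        rw [if_neg hx, zero_div] at e1
        linarith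
  have hmono : ∀ t, t ≤ T → b k (T + 1) r ≤ b k (t + 1) r := by
    intro t ht
    rw [hb]
    apply Pr_mono G r
    intro w hw
    exact (cnt_mono w K (by omega)).trans hw
  have hfin : ((T : ℝ) + 1) * b k (T + 1) r ≤ ∑ t ∈ Finset.range (T + 1), b k (t + 1) r := by
    calc ((T : ℝ) + 1) * b k (T + 1) r = ∑ t ∈ Finset.range (T + 1), b k (T + 1) r := by
          rw [Finset.sum_const, Finset.card_range, nsmul_eq_mul]
          push_cast
          ring
      _ ≤ _ := Finset.sum_le_sum (fun t ht => hmono t (by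
          have := Finset.mem_range.1 ht
          omega))
  have hL : Pr G r (Late K k T) = b k (T + 1) r := by
    rw [hb]
    rfl
  rw [hL, mul_comm]
  exact hfin.trans (key (T + 1) k r)

end Pool.Agent.Q293.CV
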