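import Pool.Agent.Q287.CV.Stm

/-!
# Cover cost: job CV-ONE, one step of the walk
-/

set_option autoImplicit false

namespace Pool.Agent.Q293.CV

open MeasureTheory Finset Q287.CV
open scoped ENNReal

section

variable {V : Type}

/-- the sequence with first element `a` and then `ω` -/
def cns (a : V → V) (ω : ℕ → V → V) : ℕ → V → V
  | 0 => a
  | s + 1 => ω s

lemma walk_cns (x : V) (a : V → V) (ω : ℕ → V → V) (t : ℕ) :
    walk x (cns a ω) (t + 1) = walk (a x) ω t := by
  induction t with
  | zero => rfl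
  | succ t ih =>
    show cns a ω (t + 1) (walk x (cns a ω) (t + 1)) = ω t (walk (a x) ω t)
    rw [ih]
    rfl

lemma sh_walk_cns (x : V) (a : V → V) (ω : ℕ → V → V) :
    sh 1 (walk x (cns a ω)) = walk (a x) ω := by
  funext s
  show walk x (cns a ω) (1 + s) = _
  rw [add_comm]
  exact walk_cns x a ω s

end

section

variable {V : Type} [Fintype V] [DecidableEq V] [MeasurableSpace V] [DiscreteMeasurableSpace V]
  (G : SimpleGraph V) [DecidableRel G.Adj]

omit [Fintype V] [DecidableEq V] [DiscreteMeasurableSpace V] in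
lemma measurable_cns : Measurable (fun p : (V → V) × (ℕ → V → V) => cns p.1 p.2) := by
  rw [measurable_pi_iff]
  intro n
  cases n with
  | zero => exact measurable_fst
  | succ n => exact (measurable_pi_apply n).comp measurable_snd

lemma map_cns : ((Measure.pi (fun x => st G x)).prod (Pm G)).map (fun p => cns p.1 p.2) = Pm G := by
  unfold Pm
  apply Measure.eq_infinitePi
  intro s t ht
  set ν := Measure.pi (fun x => st G x) with hν
  have hpi : MeasurableSet (Set.pi (s : Set ℕ) t) :=
    MeasurableSet.pi s.countable_toSet (fun i _ => ht i)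
  rw [Measure.map_apply measurable_cns hpi]
  have hinj : Set.InjOn Nat.succ (Nat.succ ⁻¹' (s : Set ℕ)) := Nat.succ_injective.injOn
  have hpre : (fun p : (V → V) × (ℕ → V → V) => cns p.1 p.2) ⁻¹' (Set.pi (s : Set ℕ) t) =
      (if 0 ∈ s then t 0 else Set.univ) ×ˢ
        Set.pi ((s.preimage Nat.succ hinj : Finset ℕ) : Set ℕ) (fun i => t (i + 1)) := by
    ext ⟨a, ω⟩
    simp only [Set.mem_preimage, Set.mem_pi, Finset.mem_coe, Set.mem_prod, Finset.mem_preimage]
    constructor
    · intro h
      refine ⟨?_, fun i hi => h (i + 1) hi⟩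
      split_ifs with h0
      · exact h 0 h0
      · trivial
    · rintro ⟨h1, h2⟩ i hi
      cases i with
      | zero => rw [if_pos hi] at h1; exact h1
      | succ i => exact h2 i hi
  rw [hpre, Measure.prod_prod, Measure.infinitePi_pi _ (fun i _ => ht (i + 1))]
  have h3 := Finset.prod_preimage Nat.succ s hinj (fun i => if i = 0 then 1 else ν (t i))
    (fun i _ hi => by
      have : i = 0 := by
        by_contra h
        exact hi ⟨i - 1, Nat.succ_pred_eq_of_pos (Nat.pos_of_ne_zero h)⟩
      simp [this])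
  have h4 : ∏ i ∈ s.preimage Nat.succ hinj, ν (t (i + 1)) =
      ∏ i ∈ s, if i = 0 then 1 else ν (t i) := by
    rw [← h3]
    apply Finset.prod_congr rfl
    intro i _
    simp
  have h5 : ∏ i ∈ s, ν (t i) = (∏ i ∈ s, if i = 0 then ν (t 0) else 1) *
      ∏ i ∈ s, if i = 0 then 1 else ν (t i) := by
    rw [← Finset.prod_mul_distrib]
    apply Finset.prod_congr rfl
    intro i _
    by_cases h : i = 0
    · subst h; simp
    · simp [h]
  rw [h4, h5, Finset.prod_ite_eq' s 0 (fun _ => ν (t 0))]
  congr 1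
  split_ifs with h0
  · rfl
  · exact measure_univ

lemma Lw_zero (x : V) : ∀ᵐ w ∂(Lw G x), w 0 = x := by
  unfold Lw
  rw [ae_map_iff (measurable_walk x).aemeasurable]
  · exact Filter.Eventually.of_forall (fun ω => rfl)
  · exact (det_at 0 x).measurableSet

lemma Lw_sh (x : V) (B : Set (ℕ → V)) (hB : MeasurableSet B) :
    Lw G x {w | sh 1 w ∈ B} = ∫⁻ y, Lw G y B ∂(st G x) := by
  have hS : MeasurableSet {w : ℕ → V | sh 1 w ∈ B} := measurable_sh 1 hB
  have h1 : Lw G x {w | sh 1 w ∈ B} = (Pm G) {ω | sh 1 (walk x ω) ∈ B} := by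
    unfold Lw
    rw [Measure.map_apply (measurable_walk x) hS]
    rfl
  have h2 : MeasurableSet {ω : ℕ → V → V | sh 1 (walk x ω) ∈ B} := (measurable_walk x) hS
  have h3 : (Pm G) {ω | sh 1 (walk x ω) ∈ B} =
      ((Measure.pi (fun x => st G x)).prod (Pm G))
        {p | walk (p.1 x) p.2 ∈ B} := by
    conv_lhs => rw [← map_cns G]
    rw [Measure.map_apply measurable_cns h2]
    congr 1
    ext p
    simp only [Set.mem_preimage, Set.mem_ofPred_eq, sh_walk_cns]
  have h4 : MeasurableSet {p : (V → V) × (ℕ → V → V) | walk (p.1 x) p.2 ∈ B} := by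
    have : {p : (V → V) × (ℕ → V → V) | walk (p.1 x) p.2 ∈ B} =
        (fun p : (V → V) × (ℕ → V → V) => cns p.1 p.2) ⁻¹'
          {ω : ℕ → V → V | sh 1 (walk x ω) ∈ B} := by
      ext p
      simp only [Set.mem_preimage, Set.mem_ofPred_eq, sh_walk_cns]
    rw [this]
    exact measurable_cns h2
  rw [h1, h3, Measure.prod_apply h4]
  have h5 : ∀ a : V → V, (Pm G) (Prod.mk a ⁻¹' {p | walk (p.1 x) p.2 ∈ B}) = Lw G (a x) B := by
    intro a
    unfold Lw
    rw [Measure.map_apply (measurable_walk (a x)) hB]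
    rfl
  simp only [h5]
  have h6 := (measurePreserving_eval (fun x => st G x) x)
  exact h6.lintegral_comp (f := fun y => Lw G y B) (measurable_of_finite _)

end

/-- job CV-ONE -/
theorem t_ONE : S_One := by
  intro V _ _ _ _ G _ hG h2 x
  refine ⟨Lw_zero G x, ?_⟩
  intro B hB
  have hd := deg_pos G hG h2 x
  unfold Pr
  rw [measureReal_def, Lw_sh G x B hB]
  have h1 : st G x = ∑ y ∈ G.neighborFinset x, ((G.degree x : ℝ≥0∞))⁻¹ • Measure.dirac y := by
    unfold st
    rw [if_neg (by omega)]
  rw [h1, lintegral_finsetSum_measure]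
  simp only [lintegral_smul_measure, lintegral_dirac, smul_eq_mul]
  rw [ENNReal.toReal_sum]
  · rw [Finset.sum_div]
    apply Finset.sum_congr rfl
    intro y _
    rw [ENNReal.toReal_mul, ENNReal.toReal_inv, ENNReal.toReal_natCast, measureReal_def]
    field_simp
  · intro y _
    apply ENNReal.mul_ne_top
    · rw [ENNReal.inv_ne_top]
      exact_mod_cast hd.ne'
    · exact measure_ne_top _ _

end Pool.Agent.Q293.CV
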