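import Pool.Agent.Q287.CV.Stm

/-!
# Cover cost: the one-step method
-/

set_option autoImplicit false
set_option linter.unusedSectionVars false

namespace Pool.Agent.Q293.CV

open MeasureTheory Finset Q287.CV
open scoped ENNReal

section Paths

variable {V : Type} [DecidableEq V]

lemma sh_apply (t : ℕ) (w : ℕ → V) (s : ℕ) : sh t w s = w (t + s) := rfl

lemma sh_one (w : ℕ → V) (s : ℕ) : sh 1 w s = w (s + 1) := by
  show w (1 + s) = _
  rw [add_comm]

lemma cnt_nil (w : ℕ → V) (v : V) : cnt w v 0 = 0 := by simp [cnt]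

lemma cnt_one (w : ℕ → V) (v : V) : cnt w v 1 = if w 0 = v then 1 else 0 := by
  by_cases h : w 0 = v
  · simp [cnt, Finset.filter_singleton, h]
  · simp [cnt, Finset.filter_singleton, h]

lemma cnt_step (w : ℕ → V) (v : V) (s : ℕ) :
    cnt w v (s + 1) = (if w 0 = v then 1 else 0) + cnt (sh 1 w) v s := by
  unfold cnt
  rw [Finset.range_eq_Ico, ← Finset.insert_Ico_add_one_left_eq_Ico (by omega : 0 < s + 1),
    Finset.filter_insert]
  have h1 : ((Finset.Ico (0 + 1) (s + 1)).filter (fun t => w t = v)).card =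
      ((Finset.range s).filter (fun t => sh 1 w t = v)).card := by
    symm
    apply Finset.card_bij (fun t _ => t + 1)
    · intro t ht
      simp only [Finset.mem_filter, Finset.mem_range] at ht
      simp only [Finset.mem_filter, Finset.mem_Ico]
      exact ⟨by omega, (sh_one w t).symm.trans ht.2⟩
    · intro a _ b _ h
      omega
    · intro b hb
      simp only [Finset.mem_filter, Finset.mem_Ico] at hb
      refine ⟨b - 1, ?_, by omega⟩
      simp only [Finset.mem_filter, Finset.mem_range]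
      refine ⟨by omega, ?_⟩
      rw [sh_one, show b - 1 + 1 = b by omega]
      exact hb.2
  split_ifs with h
  · rw [Finset.card_insert_of_notMem (by simp), h1, add_comm, Finset.range_eq_Ico]
  · rw [h1, zero_add, Finset.range_eq_Ico]

lemma fst_step (w : ℕ → V) (z : V) (h : w 0 ≠ z) (s : ℕ) : Fst w z (s + 1) ↔ Fst (sh 1 w) z s := by
  unfold Fst
  constructor
  · rintro ⟨h1, h2⟩
    refine ⟨by rw [sh_one]; exact h1, fun t ht => ?_⟩
    rw [sh_one]
    exact h2 _ (by omega)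
  · rintro ⟨h1, h2⟩
    refine ⟨by rw [sh_one] at h1; exact h1, fun t ht => ?_⟩
    cases t with
    | zero => exact h
    | succ t =>
      have := h2 t (by omega)
      rwa [sh_one] at this

lemma fst_pos (w : ℕ → V) (z : V) (h : w 0 ≠ z) {t : ℕ} (ht : Fst w z t) : ∃ s, t = s + 1 := by
  cases t with
  | zero => exact absurd ht.1 h
  | succ s => exact ⟨s, rfl⟩

/-- one step: `Few` -/
lemma few_step (w : ℕ → V) (v K : V) (k : ℕ) (hK : w 0 ≠ K) (hv : w 0 ≠ v) :
    w ∈ Few v K k ↔ sh 1 w ∈ Few v K k := by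
  constructor
  · rintro ⟨t, h1, h2⟩
    obtain ⟨s, rfl⟩ := fst_pos w K hK h1
    refine ⟨s, (fst_step w K hK s).1 h1, ?_⟩
    rw [cnt_step, if_neg hv, zero_add] at h2
    exact h2
  · rintro ⟨s, h1, h2⟩
    refine ⟨s + 1, (fst_step w K hK s).2 h1, ?_⟩
    rw [cnt_step, if_neg hv, zero_add]
    exact h2

lemma few_step_at (w : ℕ → V) (v K : V) (k : ℕ) (hK : w 0 ≠ K) (hv : w 0 = v) :
    w ∈ Few v K (k + 1) ↔ sh 1 w ∈ Few v K k := by
  constructor
  · rintro ⟨t, h1, h2⟩
    obtain ⟨s, rfl⟩ := fst_pos w K hK h1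
    refine ⟨s, (fst_step w K hK s).1 h1, ?_⟩
    rw [cnt_step, if_pos hv] at h2
    omega
  · rintro ⟨s, h1, h2⟩
    refine ⟨s + 1, (fst_step w K hK s).2 h1, ?_⟩
    rw [cnt_step, if_pos hv]
    omega

lemma few_zero_at (w : ℕ → V) (v K : V) (hK : w 0 ≠ K) (hv : w 0 = v) : w ∉ Few v K 0 := by
  rintro ⟨t, h1, h2⟩
  obtain ⟨s, rfl⟩ := fst_pos w K hK h1
  rw [cnt_step, if_pos hv] at h2
  omega

lemma few_self (w : ℕ → V) (v K : V) (k : ℕ) (hK : w 0 = K) : w ∈ Few v K k :=
  ⟨0, ⟨hK, fun s hs => absurd hs (by omega)⟩, by rw [cnt_nil]; omega⟩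

lemma hb_step (w : ℕ → V) (v z : V) (hv : w 0 ≠ v) (hz : w 0 ≠ z) :
    w ∈ Hb v z ↔ sh 1 w ∈ Hb v z := by
  constructor
  · rintro ⟨t, h1, h2⟩
    cases t with
    | zero => exact absurd h1 hv
    | succ t =>
      refine ⟨t, by rw [sh_one]; exact h1, fun s hs => ?_⟩
      rw [sh_one]
      exact h2 _ (by omega)
  · rintro ⟨t, h1, h2⟩
    rw [sh_one] at h1
    refine ⟨t + 1, h1, fun s hs => ?_⟩
    cases s with
    | zero => exact hz
    | succ s =>
      have := h2 s (by omega)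
      rwa [sh_one] at this

lemma hb_self (w : ℕ → V) (v z : V) (hvz : v ≠ z) (hv : w 0 = v) : w ∈ Hb v z :=
  ⟨0, hv, fun s hs => by
    have : s = 0 := by omega
    subst this
    rw [hv]
    exact hvz⟩

lemma hb_not (w : ℕ → V) (v z : V) (hz : w 0 = z) : w ∉ Hb v z := by
  rintro ⟨t, _, h2⟩
  exact h2 0 (by omega) hz

/-- one step: `Low` -/
lemma low_step (w : ℕ → V) (u y : V) (k a : ℕ) (hu : w 0 ≠ u) (hy : w 0 ≠ y) :
    w ∈ Low u k y a ↔ sh 1 w ∈ Low u k y a := by
  constructor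
  · rintro ⟨t, h1, h2, h3⟩
    cases t with
    | zero => exact absurd h1 hu
    | succ t =>
      rw [cnt_step, if_neg hu, zero_add] at h2
      rw [cnt_step, if_neg hy, zero_add] at h3
      exact ⟨t, by rw [sh_one]; exact h1, h2, h3⟩
  · rintro ⟨t, h1, h2, h3⟩
    rw [sh_one] at h1
    refine ⟨t + 1, h1, ?_, ?_⟩
    · rw [cnt_step, if_neg hu, zero_add]; exact h2
    · rw [cnt_step, if_neg hy, zero_add]; exact h3

lemma low_step_u (w : ℕ → V) (u y : V) (k a : ℕ) (huy : u ≠ y) (hu : w 0 = u) :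
    w ∈ Low u (k + 1) y a ↔ sh 1 w ∈ Low u k y a := by
  have hy : w 0 ≠ y := by rw [hu]; exact huy
  constructor
  · rintro ⟨t, h1, h2, h3⟩
    cases t with
    | zero => rw [cnt_nil] at h2; omega
    | succ t =>
      rw [cnt_step, if_pos hu] at h2
      rw [cnt_step, if_neg hy, zero_add] at h3
      exact ⟨t, by rw [sh_one]; exact h1, by omega, h3⟩
  · rintro ⟨t, h1, h2, h3⟩
    rw [sh_one] at h1
    refine ⟨t + 1, h1, ?_, ?_⟩
    · rw [cnt_step, if_pos hu]; omega
    · rw [cnt_step, if_neg hy, zero_add]; exact h3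

lemma low_zero_y (w : ℕ → V) (u y : V) (k : ℕ) (huy : u ≠ y) (hy : w 0 = y) :
    w ∉ Low u k y 0 := by
  rintro ⟨t, h1, h2, h3⟩
  cases t with
  | zero => exact huy (h1.symm.trans hy)
  | succ t =>
    rw [cnt_step, if_pos hy] at h3
    omega

lemma low_step_y (w : ℕ → V) (u y : V) (k a : ℕ) (huy : u ≠ y) (hy : w 0 = y) :
    w ∈ Low u k y (a + 1) ↔ sh 1 w ∈ Low u k y a := by
  have hu : w 0 ≠ u := by rw [hy]; exact huy.symm
  constructor
  · rintro ⟨t, h1, h2, h3⟩
    cases t with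
    | zero => exact absurd h1 hu
    | succ t =>
      rw [cnt_step, if_neg hu, zero_add] at h2
      rw [cnt_step, if_pos hy] at h3
      exact ⟨t, by rw [sh_one]; exact h1, h2, by omega⟩
  · rintro ⟨t, h1, h2, h3⟩
    rw [sh_one] at h1
    refine ⟨t + 1, h1, ?_, ?_⟩
    · rw [cnt_step, if_neg hu, zero_add]; exact h2
    · rw [cnt_step, if_pos hy]; omega

end Paths

section Prob

variable {V : Type} [Fintype V] [DecidableEq V] [MeasurableSpace V] [DiscreteMeasurableSpace V]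
  (G : SimpleGraph V) [DecidableRel G.Adj]

lemma Pr_nonneg (x : V) (A : Set (ℕ → V)) : 0 ≤ Pr G x A := measureReal_nonneg

lemma Pr_le_one (x : V) (A : Set (ℕ → V)) : Pr G x A ≤ 1 := measureReal_le_one

lemma Pr_mono (x : V) {A B : Set (ℕ → V)} (h : A ⊆ B) : Pr G x A ≤ Pr G x B :=
  measureReal_mono h (measure_ne_top _ _)

lemma Pr_union_le (x : V) (A B : Set (ℕ → V)) : Pr G x (A ∪ B) ≤ Pr G x A + Pr G x B :=
  measureReal_union_le A B

lemma Pr_congr (h1 : S_One) (hG : G.Connected) (h2 : 2 ≤ Fintype.card V) (x : V)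
    {A B : Set (ℕ → V)} (h : ∀ w : ℕ → V, w 0 = x → (w ∈ A ↔ w ∈ B)) : Pr G x A = Pr G x B := by
  unfold Pr
  apply measureReal_congr
  filter_upwards [(h1 V G hG h2 x).1] with w hw
  exact propext (h w hw)

/-- one step of the walk -/
lemma Pr_step (h1 : S_One) (hG : G.Connected) (h2 : 2 ≤ Fintype.card V) (x : V)
    {A B : Set (ℕ → V)} (hB : MeasurableSet B)
    (h : ∀ w : ℕ → V, w 0 = x → (w ∈ A ↔ sh 1 w ∈ B)) :
    Pr G x A = (∑ y ∈ G.neighborFinset x, Pr G y B) / (G.degree x : ℝ) := by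
  rw [← (h1 V G hG h2 x).2 B hB]
  exact Pr_congr G h1 hG h2 x h

lemma Pr_zero (h1 : S_One) (hG : G.Connected) (h2 : 2 ≤ Fintype.card V) (x : V)
    {A : Set (ℕ → V)} (h : ∀ w : ℕ → V, w 0 = x → w ∉ A) : Pr G x A = 0 := by
  have := Pr_congr G h1 hG h2 x (A := A) (B := ∅) (fun w hw => by simp [h w hw])
  rw [this]
  unfold Pr
  simp

lemma Pr_one (h1 : S_One) (hG : G.Connected) (h2 : 2 ≤ Fintype.card V) (x : V)
    {A : Set (ℕ → V)} (h : ∀ w : ℕ → V, w 0 = x → w ∈ A) : Pr G x A = 1 := by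
  have := Pr_congr G h1 hG h2 x (A := A) (B := Set.univ) (fun w hw => by simp [h w hw])
  rw [this]
  unfold Pr
  simp

omit [MeasurableSpace V] [DiscreteMeasurableSpace V] in
/-- uniqueness for the Dirichlet problem -/
lemma harm_unique (hG : G.Connected) (h2 : 2 ≤ Fintype.card V) (A : Set V) (hA : A.Nonempty)
    (f g : V → ℝ)
    (hf : ∀ x, x ∉ A → f x = (∑ y ∈ G.neighborFinset x, f y) / (G.degree x : ℝ))
    (hg : ∀ x, x ∉ A → g x = (∑ y ∈ G.neighborFinset x, g y) / (G.degree x : ℝ))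
    (h0 : ∀ x ∈ A, f x = g x) (x : V) : f x = g x :=
  le_antisymm
    (max_principle' G hG h2 A hA f g (fun x hx => (hf x hx).le) (fun x hx => (hg x hx).ge)
      (fun x hx => (h0 x hx).le) x)
    (max_principle' G hG h2 A hA g f (fun x hx => (hg x hx).le) (fun x hx => (hf x hx).ge)
      (fun x hx => (h0 x hx).ge) x)

omit [MeasurableSpace V] [DiscreteMeasurableSpace V] in
/-- average of an affine function of `f` -/
lemma avg_affine (hG : G.Connected) (h2 : 2 ≤ Fintype.card V) (x : V) (f : V → ℝ) (a b : ℝ) :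
    (∑ y ∈ G.neighborFinset x, (a + b * f y)) / (G.degree x : ℝ) =
      a + b * ((∑ y ∈ G.neighborFinset x, f y) / (G.degree x : ℝ)) := by
  have hd : (0 : ℝ) < (G.degree x : ℝ) := by exact_mod_cast deg_pos G hG h2 x
  rw [Finset.sum_add_distrib, ← Finset.mul_sum, Finset.sum_const,
    G.card_neighborFinset_eq_degree, nsmul_eq_mul]
  field_simp

omit [MeasurableSpace V] [DiscreteMeasurableSpace V] in
/-- average of the Green function -/
lemma avg_gr (h2' : S_Res) (hG : G.Connected) (h2 : 2 ≤ Fintype.card V) (z v x : V) :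
    (∑ y ∈ G.neighborFinset x, gr G z y v) / (G.degree x : ℝ) =
      gr G z x v - ((if x = v then 1 else 0) - (if x = z then 1 else 0)) / (G.degree x : ℝ) := by
  have hd : (0 : ℝ) < (G.degree x : ℝ) := by exact_mod_cast deg_pos G hG h2 x
  obtain ⟨-, -, -, -, -, -, h, -⟩ := h2' V G hG h2
  have := h z v x
  rw [div_eq_iff hd.ne', sub_mul, div_mul_cancel₀ _ hd.ne', ← this]
  ring

end Prob

end Pool.Agent.Q293.CV
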